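import Pool.Agent.K3h20.CR.Stm

/-!
# Bricks LD and AFF of project CR (job 62 of helper20), proved by helper21
-/

set_option autoImplicit false

open Set Filter Topology MeasureTheory Metric

namespace Pool.Agent.K3h21.CR

open Pool.Agent.K3h20.CR

theorem t_ld : St_ld := by
  intro f f' x₀ R M hR hM hMR h x hx
  have hcont : ContinuousOn (fun x => ‖f x‖) (closedBall x₀ R) := fun y hy =>
    (h y hy).1.continuousAt.continuousWithinAt.norm
  obtain ⟨z, hz, hmax⟩ := (isCompact_closedBall x₀ R).exists_isMaxOn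
    ⟨x₀, mem_closedBall_self hR⟩ hcont
  have hS : ∀ y ∈ closedBall x₀ R, ‖f y‖ ≤ ‖f z‖ := fun y hy => hmax hy
  have key : ∀ y ∈ closedBall x₀ R, ‖f y - f x₀‖ ≤ M * ‖f z‖ * ‖y - x₀‖ := by
    intro y hy
    refine (convex_closedBall x₀ R).norm_image_sub_le_of_norm_hasDerivWithin_le
      (f' := f') (fun w hw => (h w hw).1.hasDerivWithinAt) (fun w hw => ?_)
      (mem_closedBall_self hR) hy
    exact (h w hw).2.trans (mul_le_mul_of_nonneg_left (hS w hw) hM)
  have h1 := key z hz
  have h2 : ‖z - x₀‖ ≤ R := by rwa [mem_closedBall, dist_eq_norm] at hz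
  have h3 : ‖f z‖ ≤ ‖f x₀‖ + ‖f z - f x₀‖ := by
    calc ‖f z‖ = ‖f x₀ + (f z - f x₀)‖ := by rw [add_sub_cancel]
      _ ≤ _ := norm_add_le _ _
  have h4 : M * ‖f z‖ * ‖z - x₀‖ ≤ ‖f z‖ / 2 := by
    calc M * ‖f z‖ * ‖z - x₀‖ ≤ M * ‖f z‖ * R := by gcongr
      _ = M * R * ‖f z‖ := by ring
      _ ≤ 1 / 2 * ‖f z‖ := by gcongr
      _ = ‖f z‖ / 2 := by ring
  have h5 : ‖f z‖ ≤ 2 * ‖f x₀‖ := by linarith
  calc ‖f x - f x₀‖ ≤ M * ‖f z‖ * ‖x - x₀‖ := key x hx
    _ ≤ M * (2 * ‖f x₀‖) * ‖x - x₀‖ := by gcongr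
    _ = _ := by ring

theorem det_smul (c : ℂ) : (c • (1 : ℂ →L[ℝ] ℂ)).det = ‖c‖ ^ 2 := by
  rw [ContinuousLinearMap.det, ← Complex.normSq_eq_norm_sq, ← Algebra.norm_complex_apply,
    Algebra.norm_apply]
  congr 1

theorem t_aff : St_aff := by
  intro G G' x₀ R hR hG' h
  have hx₀ : x₀ ∈ closedBall x₀ R := mem_closedBall_self hR.le
  set m : ℝ := ‖G' x₀‖ with hm
  have hm0 : 0 < m := norm_pos_iff.2 hG'
  -- the basic inequality
  have hbas : ∀ x ∈ closedBall x₀ R, ∀ x' ∈ closedBall x₀ R,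
      ‖(G x' - G' x₀ * x') - (G x - G' x₀ * x)‖ ≤ m / 2 * ‖x' - x‖ := by
    intro x hx x' hx'
    refine (convex_closedBall x₀ R).norm_image_sub_le_of_norm_hasDerivWithin_le
      (f := fun y => G y - G' x₀ * y) (f' := fun y => G' y - G' x₀) (fun w hw => ?_)
      (fun w hw => (h w hw).2) hx hx'
    have := (h w hw).1.sub ((hasDerivAt_id w).const_mul (G' x₀))
    rw [mul_one] at this
    exact this.hasDerivWithinAt
  have hinj : InjOn G (closedBall x₀ R) := by
    intro x hx x' hx' hxx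
    have h1 := hbas x hx x' hx'
    have h2 : (G x' - G' x₀ * x') - (G x - G' x₀ * x) = -(G' x₀ * (x' - x)) := by
      rw [hxx]; ring
    rw [h2, norm_neg, norm_mul, ← hm] at h1
    by_contra hne
    have h3 : 0 < ‖x' - x‖ := norm_pos_iff.2 (sub_ne_zero.2 (Ne.symm hne))
    nlinarith
  have hlow : ∀ x ∈ closedBall x₀ R, m / 2 ≤ ‖G' x‖ := by
    intro x hx
    have h1 := (h x hx).2
    have h2 : ‖G' x₀‖ ≤ ‖G' x‖ + ‖G' x - G' x₀‖ := by
      calc ‖G' x₀‖ = ‖G' x - (G' x - G' x₀)‖ := by rw [sub_sub_cancel]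
        _ ≤ _ := norm_sub_le _ _
    linarith
  have hcont : ContinuousOn G (closedBall x₀ R) := fun y hy =>
    (h y hy).1.continuousAt.continuousWithinAt
  refine ⟨?_, ?_, ?_⟩
  · intro S
    set S' := toMeasurable volume S with hS'
    set T : Set ℂ := closedBall x₀ R ∩ G ⁻¹' S' with hT
    have hTm : MeasurableSet T := by
      have h1 : Measurable ((closedBall x₀ R).domRestrict G) := hcont.domRestrict.measurable
      have h2 : MeasurableSet ((closedBall x₀ R).domRestrict G ⁻¹' S') :=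
        h1 (measurableSet_toMeasurable _ _)
      have h3 := isClosed_closedBall.measurableSet.subtype_image h2
      convert h3 using 1
      ext x
      simp only [hT, mem_inter_iff, mem_preimage, mem_image, Subtype.exists]
      constructor
      · rintro ⟨h4, h5⟩
        exact ⟨x, h4, h5, rfl⟩
      · rintro ⟨y, h4, h5, rfl⟩
        exact ⟨h4, h5⟩
    have h1 : ∫⁻ x in T, ENNReal.ofReal |(G' x • (1 : ℂ →L[ℝ] ℂ)).det| = volume (G '' T) :=
      lintegral_abs_det_fderiv_eq_addHaar_image volume hTm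
        (fun x hx => (h x hx.1).1.complexToReal_fderiv.hasFDerivWithinAt)
        (hinj.mono inter_subset_left)
    have h2 : ENNReal.ofReal (m ^ 2 / 4) * volume T ≤ volume (G '' T) := by
      rw [← h1, ← setLIntegral_const]
      refine setLIntegral_mono' hTm (fun x hx => ?_)
      apply ENNReal.ofReal_le_ofReal
      rw [det_smul, abs_of_nonneg (by positivity)]
      have h3 := hlow x hx.1
      nlinarith
    have h3 : volume (G '' T) ≤ volume S := by
      calc volume (G '' T) ≤ volume S' := measure_mono (by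
            rintro _ ⟨x, hx, rfl⟩
            exact hx.2)
        _ = volume S := measure_toMeasurable S
    have h4 : volume (closedBall x₀ R ∩ G ⁻¹' S) ≤ volume T :=
      measure_mono (inter_subset_inter_right _ (preimage_mono (subset_toMeasurable _ _)))
    refine h4.trans ?_
    have h5 : volume T = ENNReal.ofReal (4 / m ^ 2) * (ENNReal.ofReal (m ^ 2 / 4) * volume T) := by
      rw [← mul_assoc, ← ENNReal.ofReal_mul (by positivity)]
      have : 4 / m ^ 2 * (m ^ 2 / 4) = 1 := by field_simp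
      rw [this, ENNReal.ofReal_one, one_mul]
    rw [h5]
    exact mul_le_mul_right (h2.trans h3) _
  · intro x hx
    have h1 := hbas x₀ hx₀ x hx
    have h2 : G x - G x₀ - G' x₀ * (x - x₀) = (G x - G' x₀ * x) - (G x₀ - G' x₀ * x₀) := by ring
    rw [h2]
    exact h1
  · intro ζ hζ
    rw [mem_closedBall, dist_eq_norm] at hζ
    set Φ : ℂ → ℂ := fun x => x - (G x - ζ) / G' x₀ with hΦ
    have hmaps : MapsTo Φ (closedBall x₀ R) (closedBall x₀ R) := by
      intro x hx
      have h1 := hbas x₀ hx₀ x hx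
      rw [mem_closedBall, dist_eq_norm] at hx ⊢
      have h2 : Φ x - x₀ = ((ζ - G x₀) - ((G x - G' x₀ * x) - (G x₀ - G' x₀ * x₀))) / G' x₀ := by
        simp only [hΦ]
        field_simp
        ring
      rw [h2, norm_div, ← hm, div_le_iff₀ hm0]
      calc ‖(ζ - G x₀) - ((G x - G' x₀ * x) - (G x₀ - G' x₀ * x₀))‖
          ≤ ‖ζ - G x₀‖ + ‖(G x - G' x₀ * x) - (G x₀ - G' x₀ * x₀)‖ := norm_sub_le _ _
        _ ≤ m * R / 2 + m / 2 * ‖x - x₀‖ := add_le_add hζ h1
        _ ≤ m * R / 2 + m / 2 * R := by gcongr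
        _ = R * m := by ring
    have hcomp : IsComplete (closedBall x₀ R) := isClosed_closedBall.isComplete
    have hcon : ContractingWith (1 / 2 : NNReal) (hmaps.restrict Φ _ _) := by
      refine ⟨by
        rw [← NNReal.coe_lt_coe]
        norm_num, ?_⟩
      refine LipschitzWith.of_dist_le_mul ?_
      rintro ⟨x, hx⟩ ⟨y, hy⟩
      have h1 := hbas y hy x hx
      rw [Subtype.dist_eq, Subtype.dist_eq, MapsTo.val_restrict_apply,
        MapsTo.val_restrict_apply, dist_eq_norm, dist_eq_norm]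
      have h2 : Φ x - Φ y = -((G x - G' x₀ * x) - (G y - G' x₀ * y)) / G' x₀ := by
        simp only [hΦ]
        field_simp
        ring
      change ‖Φ x - Φ y‖ ≤ _
      rw [h2, norm_div, norm_neg, ← hm, div_le_iff₀ hm0]
      refine h1.trans (le_of_eq ?_)
      have : (((1 / 2 : NNReal) : ℝ)) = 1 / 2 := by norm_num
      rw [this]
      ring
    obtain ⟨x, hx, hfix, -, -⟩ := ContractingWith.exists_fixedPoint' hcomp hmaps hcon
      (x := x₀) hx₀ (edist_ne_top _ _)
    refine ⟨x, hx, ?_⟩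
    have h1 : Φ x = x := hfix
    simp only [hΦ] at h1
    have h2 : (G x - ζ) / G' x₀ = 0 := by
      have := sub_eq_self.1 h1
      exact this
    rcases div_eq_zero_iff.1 h2 with h3 | h3
    · exact sub_eq_zero.1 h3
    · exact absurd h3 hG'

end Pool.Agent.K3h21.CR
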