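import Pool.Agent.K3h21.CR.LdAff
import Pool.Agent.K3h37.CR.Vit
import Pool.Agent.W349.CD.NU

/-!
# Brick LEV of project CR (job 63 of helper20), proved by helper21
-/

set_option autoImplicit false

open Set Filter Topology MeasureTheory Metric

namespace Pool.Agent.K3h21.CR

open Pool.Agent.K3h20.CR Pool.Agent.W751.CD

/-- the local logarithm of `r` -/
theorem local_log {r g : ℂ → ℂ} {y w₀ : ℂ} {d B c R : ℝ} (hB : 0 ≤ B) (hc : 0 < c)
    (hw₀ : w₀ ≠ y) (hR : 0 < R) (hRd : R ≤ d) (hR1 : R ≤ ‖w₀ - y‖)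
    (hR2 : B * R ≤ c / 2 * ‖w₀ - y‖) (hR3 : 4 * B * ‖w₀ - y‖ * R ≤ 1 / 2)
    (hlow : c * ‖w₀ - y‖ ≤ ‖g w₀‖)
    (h : ∀ w' ∈ closedBall w₀ d, r w' ≠ 0 ∧ HasDerivAt r (g w' * r w') w' ∧
      ‖g w'‖ ≤ B * ‖w' - y‖ ∧ ∀ w'' ∈ closedBall w₀ d, ‖g w' - g w''‖ ≤ B * ‖w' - w''‖) :
    g w₀ ≠ 0 ∧ ∀ w ∈ closedBall w₀ R,
      HasDerivAt (fun w => Complex.log (r w / r w₀)) (g w) w ∧ ‖g w - g w₀‖ ≤ ‖g w₀‖ / 2 ∧
      (Complex.log (r w / r w₀)).re = Real.log ‖r w‖ - Real.log ‖r w₀‖ := by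
  have hy0 : 0 < ‖w₀ - y‖ := norm_pos_iff.2 (sub_ne_zero.2 hw₀)
  have hg0 : 0 < ‖g w₀‖ := lt_of_lt_of_le (by positivity) hlow
  have hsub : closedBall w₀ R ⊆ closedBall w₀ d := closedBall_subset_closedBall hRd
  have hw₀d : w₀ ∈ closedBall w₀ d := hsub (mem_closedBall_self hR.le)
  have hr0 : r w₀ ≠ 0 := (h w₀ hw₀d).1
  have hr0' : 0 < ‖r w₀‖ := norm_pos_iff.2 hr0
  set M : ℝ := 2 * B * ‖w₀ - y‖ with hM
  have hM0 : 0 ≤ M := by positivity
  have hMR : M * R ≤ 1 / 4 := by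
    rw [hM]; linarith
  have hld : ∀ w ∈ closedBall w₀ R, ‖r w - r w₀‖ ≤ 2 * M * ‖w - w₀‖ * ‖r w₀‖ := by
    refine t_ld r (fun w => g w * r w) w₀ R M hR.le hM0 (by linarith) (fun w hw => ?_)
    obtain ⟨h1, h2, h3, -⟩ := h w (hsub hw)
    refine ⟨h2, ?_⟩
    rw [norm_mul]
    apply mul_le_mul_of_nonneg_right _ (norm_nonneg _)
    refine h3.trans ?_
    rw [mem_closedBall, dist_eq_norm] at hw
    have h4 : ‖w - y‖ ≤ ‖w - w₀‖ + ‖w₀ - y‖ := by
      calc ‖w - y‖ = ‖(w - w₀) + (w₀ - y)‖ := by rw [sub_add_sub_cancel]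
        _ ≤ _ := norm_add_le _ _
    rw [hM]
    calc B * ‖w - y‖ ≤ B * (2 * ‖w₀ - y‖) := by
          apply mul_le_mul_of_nonneg_left _ hB
          linarith
      _ = _ := by ring
  refine ⟨norm_pos_iff.1 hg0, fun w hw => ?_⟩
  have hw' := hw
  rw [mem_closedBall, dist_eq_norm] at hw'
  obtain ⟨h1, h2, h3, h4⟩ := h w (hsub hw)
  have h5 : ‖r w / r w₀ - 1‖ ≤ 1 / 2 := by
    have h6 : r w / r w₀ - 1 = (r w - r w₀) / r w₀ := by field_simp
    rw [h6, norm_div, div_le_iff₀ hr0']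
    refine (hld w hw).trans ?_
    apply mul_le_mul_of_nonneg_right _ hr0'.le
    have : M * ‖w - w₀‖ ≤ M * R := mul_le_mul_of_nonneg_left hw' hM0
    linarith
  have h6 : r w / r w₀ ∈ Complex.slitPlane := by
    left
    have h7 := (Complex.abs_re_le_norm (r w / r w₀ - 1)).trans h5
    rw [Complex.sub_re, Complex.one_re] at h7
    linarith [(abs_le.1 h7).1]
  refine ⟨?_, ?_, ?_⟩
  · have h7 := (h2.div_const (r w₀)).clog h6
    convert h7 using 1
    field_simp
  · refine (h4 w₀ hw₀d).trans ?_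
    calc B * ‖w - w₀‖ ≤ B * R := mul_le_mul_of_nonneg_left hw' hB
      _ ≤ c / 2 * ‖w₀ - y‖ := hR2
      _ ≤ ‖g w₀‖ / 2 := by linarith
  · rw [Complex.log_re, norm_div, Real.log_div (norm_pos_iff.2 h1).ne' hr0'.ne']

theorem volume_rect (a b : ℝ) :
    volume {z : ℂ | |z.re| ≤ a ∧ |z.im| ≤ b} = ENNReal.ofReal (2 * a) * ENNReal.ofReal (2 * b) := by
  have h := Complex.volume_preserving_equiv_real_prod
  have h1 : {z : ℂ | |z.re| ≤ a ∧ |z.im| ≤ b} =
      Complex.measurableEquivRealProd ⁻¹' (Set.Icc (-a) a ×ˢ Set.Icc (-b) b) := by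
    ext z
    simp only [mem_ofPred_eq, abs_le, mem_preimage, mem_prod, mem_Icc]
    exact Iff.rfl
  rw [h1, h.measure_preimage_equiv, Measure.volume_eq_prod, Measure.prod_prod, Real.volume_Icc,
    Real.volume_Icc]
  congr 2 <;> ring

/-- the logarithmic area of a disc -/
theorem nu_closedBall_ge {z : ℂ} {ρ : ℝ} (hρ : 0 ≤ ρ) (hz : 0 < ‖z‖) (hρz : ρ ≤ ‖z‖) :
    ENNReal.ofReal (ρ ^ 2 / (4 * ‖z‖ ^ 2) * Real.pi) ≤ nu (closedBall z ρ) := by
  rw [nu, withDensity_apply _ isClosed_closedBall.measurableSet]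
  have h1 : ∫⁻ _ in closedBall z ρ, ENNReal.ofReal ((4 * ‖z‖ ^ 2)⁻¹) ≤
      ∫⁻ a in closedBall z ρ, ENNReal.ofReal ((‖a‖ ^ 2)⁻¹) := by
    refine setLIntegral_mono_ae' isClosed_closedBall.measurableSet ?_
    have h0 : ∀ᵐ a : ℂ, a ≠ 0 := by
      simp [ae_iff]
    filter_upwards [h0] with a ha0 ha
    apply ENNReal.ofReal_le_ofReal
    have ha1 : 0 < ‖a‖ := norm_pos_iff.2 ha0
    apply inv_anti₀ (by positivity)
    rw [mem_closedBall, dist_eq_norm] at ha
    have h2 : ‖a‖ ≤ ‖a - z‖ + ‖z‖ := by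
      calc ‖a‖ = ‖(a - z) + z‖ := by rw [sub_add_cancel]
        _ ≤ _ := norm_add_le _ _
    have h3 : ‖a‖ ≤ 2 * ‖z‖ := by linarith
    calc ‖a‖ ^ 2 ≤ (2 * ‖z‖) ^ 2 := by gcongr
      _ = 4 * ‖z‖ ^ 2 := by ring
  refine le_trans (le_of_eq ?_) h1
  rw [setLIntegral_const, Complex.volume_closedBall]
  have h4 : (↑NNReal.pi : ENNReal) = ENNReal.ofReal Real.pi := by
    rw [← NNReal.coe_real_pi, ENNReal.ofReal_coe_nnreal]
  rw [h4, ← ENNReal.ofReal_pow hρ, ← ENNReal.ofReal_mul (by positivity),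
    ← ENNReal.ofReal_mul (by positivity)]
  congr 1
  field_simp

theorem t_lev : St_lev := by
  intro r g y ρ₀ ε d B c hG L hL
  obtain ⟨hρ, hρ1, hε, hd, hB, hc, hlow⟩ := hG
  set K : ℝ := 2 / ρ₀ + ‖y‖ with hK
  have hK0 : 0 < K := by positivity
  -- the small constant
  obtain ⟨c4, hc4, h41, h42, h43, h44⟩ : ∃ c4 : ℝ, 0 < c4 ∧ c4 ≤ 1 / 10 ∧ 5 * c4 * K ≤ d ∧
      5 * B * c4 ≤ c / 2 ∧ 20 * B * c4 * K ^ 2 ≤ 1 / 2 := by
    refine ⟨min (1 / 10) (min (d / (5 * K)) (min (c / (10 * B)) (1 / (40 * B * K ^ 2)))),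
      by positivity, min_le_left _ _, ?_, ?_, ?_⟩
    · calc 5 * (min (1 / 10) (min (d / (5 * K)) (min (c / (10 * B)) (1 / (40 * B * K ^ 2))))) * K
          ≤ 5 * (d / (5 * K)) * K := by
            gcongr
            exact (min_le_right _ _).trans (min_le_left _ _)
        _ = d := by field_simp
    · calc 5 * B * (min (1 / 10) (min (d / (5 * K)) (min (c / (10 * B)) (1 / (40 * B * K ^ 2)))))
          ≤ 5 * B * (c / (10 * B)) := by
            gcongr
            exact (min_le_right _ _).trans ((min_le_right _ _).trans (min_le_left _ _))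
        _ = c / 2 := by field_simp; norm_num
    · calc 20 * B * (min (1 / 10) (min (d / (5 * K)) (min (c / (10 * B))
            (1 / (40 * B * K ^ 2))))) * K ^ 2
          ≤ 20 * B * (1 / (40 * B * K ^ 2)) * K ^ 2 := by
            gcongr
            exact (min_le_right _ _).trans ((min_le_right _ _).trans (min_le_right _ _))
        _ = 1 / 2 := by field_simp; norm_num
  set C' : ℝ := 960 * L / (Real.pi * c * c4) with hC'
  have hC'0 : 0 < C' := by have := Real.pi_pos; positivity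
  refine ⟨Real.pi + 3 * Real.pi * C', by have := Real.pi_pos; positivity,
    max (max 3 ⌈L / ε⌉₊) ⌈4 * K⌉₊, fun n hn => ?_⟩
  have hn3 : (3 : ℝ) ≤ n := by exact_mod_cast (le_max_left 3 _).trans ((le_max_left _ _).trans hn)
  have hn0 : (0 : ℝ) < n := by linarith
  have hnε : L / n ≤ ε := by
    have h1 : L / ε ≤ n := (Nat.le_ceil _).trans (by
      exact_mod_cast (le_max_right 3 _).trans ((le_max_left _ _).trans hn))
    rw [div_le_iff₀ hε] at h1
    rw [div_le_iff₀ hn0]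
    linarith
  have hnK : 4 * K ≤ n := (Nat.le_ceil _).trans (by exact_mod_cast (le_max_right _ _).trans hn)
  have hlog1 : 1 ≤ Real.log n := by
    rw [Real.le_log_iff_exp_le hn0]
    exact (Real.exp_one_lt_d9.le.trans (by norm_num)).trans hn3
  set S : Set ℂ := lev r (ρ₀ / 2) (L / n) with hS
  set X : Set ℂ := S \ ball y (1 / √n) with hX
  have hsq : 0 < √(n : ℝ) := Real.sqrt_pos.2 hn0
  have hSlow : ∀ w ∈ S, c * ‖w - y‖ ≤ ‖g w‖ ∧ ∀ w' ∈ closedBall w d, r w' ≠ 0 ∧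
      HasDerivAt r (g w' * r w') w' ∧ ‖g w'‖ ≤ B * ‖w' - y‖ ∧
      ∀ w'' ∈ closedBall w d, ‖g w' - g w''‖ ≤ B * ‖w' - w''‖ := by
    intro w hw
    obtain ⟨h1, h2, h3, h4⟩ := hw
    rw [inv_div] at h2
    exact hlow w h1 h2 ((Real.exp_le_exp.2 (by linarith)).trans h3)
      (h4.trans (Real.exp_le_exp.2 hnε))
  have hSK : ∀ w ∈ S, ‖w - y‖ ≤ K := by
    intro w hw
    obtain ⟨h1, h2, h3, h4⟩ := hw
    rw [inv_div] at h2
    calc ‖w - y‖ ≤ ‖w‖ + ‖y‖ := norm_sub_le _ _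
      _ ≤ K := by rw [hK]; linarith
  have hXy : ∀ w ∈ X, 1 / √n ≤ ‖w - y‖ := by
    intro w hw
    have h1 := hw.2
    rw [mem_ball, dist_eq_norm, not_lt] at h1
    exact h1
  -- the measure
  let μ : Measure ℂ := ENNReal.ofReal (C' / n) • (nu.map (fun a => a + y))
  have hμ : ∀ A : Set ℂ, MeasurableSet A →
      μ A = ENNReal.ofReal (C' / n) * nu ((fun a => a + y) ⁻¹' A) := by
    intro A hA
    show ENNReal.ofReal (C' / n) • (nu.map (fun a => a + y)) A = _
    rw [Measure.map_apply (by fun_prop) hA, smul_eq_mul]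
  -- Vitali
  have hvit := Pool.Agent.K3h37.CR.t_vit μ X S (fun w => c4 * ‖w - y‖) (c4 * K) (by
    intro w hw
    have h1 : 0 < ‖w - y‖ := lt_of_lt_of_le (by positivity) (hXy w hw)
    exact ⟨by positivity, mul_le_mul_of_nonneg_left (hSK w hw.1) hc4.le⟩) (by
    intro w hw
    have hwS := hw.1
    have hwy : 0 < ‖w - y‖ := lt_of_lt_of_le (by positivity) (hXy w hw)
    have hwne : w ≠ y := fun h => by rw [h, sub_self, norm_zero] at hwy; exact lt_irrefl _ hwy
    have hwK := hSK w hwS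
    obtain ⟨hl1, hl2⟩ := hSlow w hwS
    set R : ℝ := 5 * (c4 * ‖w - y‖) with hR
    have hR0 : 0 < R := by positivity
    have hRd : R ≤ d := by
      calc R = 5 * c4 * ‖w - y‖ := by rw [hR]; ring
        _ ≤ 5 * c4 * K := by gcongr
        _ ≤ d := h42
    have hR1 : R ≤ ‖w - y‖ := by
      rw [hR]
      nlinarith
    have hR2 : B * R ≤ c / 2 * ‖w - y‖ := by
      calc B * R = (5 * B * c4) * ‖w - y‖ := by rw [hR]; ring
        _ ≤ c / 2 * ‖w - y‖ := by gcongr
    have hR3 : 4 * B * ‖w - y‖ * R ≤ 1 / 2 := by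
      calc 4 * B * ‖w - y‖ * R = 20 * B * c4 * ‖w - y‖ ^ 2 := by rw [hR]; ring
        _ ≤ 20 * B * c4 * K ^ 2 := by gcongr
        _ ≤ 1 / 2 := h44
    obtain ⟨hg0, hloc⟩ := local_log (by linarith) hc hwne hR0 hRd hR1 hR2 hR3 hl1 hl2
    set H : ℂ → ℂ := fun z => Complex.log (r z / r w) with hH
    have hgp : 0 < ‖g w‖ := norm_pos_iff.2 hg0
    obtain ⟨ha1, ha2, -⟩ := t_aff H g w R hR0 hg0 (fun z hz => ⟨(hloc z hz).1, (hloc z hz).2.1⟩)
    have hr0 : r w ≠ 0 := (hl2 w (mem_closedBall_self hd.le)).1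
    have hH0 : H w = 0 := by
      simp only [hH]
      rw [div_self hr0, Complex.log_one]
    set R' : ℝ := 3 / 2 * ‖g w‖ * R with hR'
    have hsub : S ∩ closedBall w (5 * (c4 * ‖w - y‖)) ⊆
        closedBall w R ∩ H ⁻¹' {z : ℂ | |z.re| ≤ 2 * (L / n) ∧ |z.im| ≤ R'} := by
      rintro z ⟨hzS, hzb⟩
      refine ⟨hzb, ?_, ?_⟩
      · rw [(hloc z hzb).2.2]
        have e : ∀ x ∈ S, |Real.log ‖r x‖| ≤ L / n := by
          intro x hx
          obtain ⟨-, -, h3, h4⟩ := hx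
          have hx0 : 0 < ‖r x‖ := (Real.exp_pos _).trans_le h3
          rw [abs_le]
          constructor
          · rw [Real.le_log_iff_exp_le hx0]; exact h3
          · rw [Real.log_le_iff_le_exp hx0]; exact h4
        have e1 := e z hzS
        have e2 := e w hwS
        calc |Real.log ‖r z‖ - Real.log ‖r w‖| ≤ |Real.log ‖r z‖| + |Real.log ‖r w‖| :=
              abs_sub _ _
          _ ≤ 2 * (L / n) := by linarith
      · have h5 := ha2 z hzb
        rw [hH0, sub_zero] at h5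
        have h6 : ‖H z‖ ≤ ‖H z - g w * (z - w)‖ + ‖g w * (z - w)‖ := by
          calc ‖H z‖ = ‖(H z - g w * (z - w)) + g w * (z - w)‖ := by rw [sub_add_cancel]
            _ ≤ _ := norm_add_le _ _
        rw [norm_mul] at h6
        have h7 : ‖z - w‖ ≤ R := by rwa [mem_closedBall, dist_eq_norm] at hzb
        calc |(H z).im| ≤ ‖H z‖ := Complex.abs_im_le_norm _
          _ ≤ ‖g w‖ / 2 * ‖z - w‖ + ‖g w‖ * ‖z - w‖ := by linarith
          _ = 3 / 2 * ‖g w‖ * ‖z - w‖ := by ring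
          _ ≤ R' := by rw [hR']; gcongr
    have hup : volume (S ∩ closedBall w (5 * (c4 * ‖w - y‖))) ≤
        ENNReal.ofReal (240 * L * c4 / (c * n)) := by
      refine (measure_mono hsub).trans ((ha1 _).trans ?_)
      rw [volume_rect, ← ENNReal.ofReal_mul (by positivity), ← ENNReal.ofReal_mul (by positivity)]
      apply ENNReal.ofReal_le_ofReal
      have h8 : 4 / ‖g w‖ ^ 2 * (2 * (2 * (L / n)) * (2 * R')) = 240 * L * c4 / n *
          (‖w - y‖ / ‖g w‖) := by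
        rw [hR', hR]
        field_simp
        ring
      rw [h8]
      have h9 : ‖w - y‖ / ‖g w‖ ≤ 1 / c := by
        rw [div_le_div_iff₀ hgp hc]
        linarith
      calc 240 * L * c4 / n * (‖w - y‖ / ‖g w‖) ≤ 240 * L * c4 / n * (1 / c) := by gcongr
        _ = 240 * L * c4 / (c * n) := by field_simp
    refine hup.trans ?_
    rw [hμ _ isClosed_closedBall.measurableSet]
    have hpre : (fun a => a + y) ⁻¹' closedBall w (c4 * ‖w - y‖) =
        closedBall (w - y) (c4 * ‖w - y‖) := by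
      ext a
      rw [mem_preimage, mem_closedBall, mem_closedBall, dist_eq_norm, dist_eq_norm]
      rw [show a + y - w = a - (w - y) by ring]
    rw [hpre]
    have h10 := nu_closedBall_ge (z := w - y) (ρ := c4 * ‖w - y‖) (by positivity) hwy (by
      nlinarith)
    calc ENNReal.ofReal (240 * L * c4 / (c * n))
        = ENNReal.ofReal (C' / n) * ENNReal.ofReal ((c4 * ‖w - y‖) ^ 2 / (4 * ‖w - y‖ ^ 2) *
            Real.pi) := by
          rw [← ENNReal.ofReal_mul (by positivity)]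
          congr 1
          rw [hC']
          have := Real.pi_pos
          field_simp
          ring
      _ ≤ _ := mul_le_mul_right h10 _)
  -- the union is in an annulus
  have hun : (⋃ x ∈ X, closedBall x (c4 * ‖x - y‖)) ⊆
      (fun a => a - y) ⁻¹' {a : ℂ | 1 / (2 * √n) ≤ ‖a‖ ∧ ‖a‖ ≤ 2 * K} := by
    intro z hz
    rw [mem_iUnion₂] at hz
    obtain ⟨w, hw, hzw⟩ := hz
    rw [mem_closedBall, dist_eq_norm] at hzw
    have h1 := hXy w hw
    have h2 := hSK w hw.1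
    have h3 : 0 ≤ ‖w - y‖ := norm_nonneg _
    have h4 : ‖z - w‖ ≤ ‖w - y‖ / 2 := by nlinarith
    have h5 : ‖z - y‖ ≤ ‖z - w‖ + ‖w - y‖ := by
      calc ‖z - y‖ = ‖(z - w) + (w - y)‖ := by rw [sub_add_sub_cancel]
        _ ≤ _ := norm_add_le _ _
    have h6 : ‖w - y‖ ≤ ‖z - w‖ + ‖z - y‖ := by
      calc ‖w - y‖ = ‖(z - y) - (z - w)‖ := by rw [sub_sub_sub_cancel_left]
        _ ≤ ‖z - y‖ + ‖z - w‖ := norm_sub_le _ _
        _ = _ := add_comm _ _
    have h7 : 1 / (2 * √(n : ℝ)) = 1 / √n / 2 := by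
      rw [div_div, mul_comm]
    constructor
    · show 1 / (2 * √(n : ℝ)) ≤ ‖z - y‖
      rw [h7]
      linarith
    · show ‖z - y‖ ≤ 2 * K
      linarith
  have hμun : μ (⋃ x ∈ X, closedBall x (c4 * ‖x - y‖)) ≤
      ENNReal.ofReal (C' / n * (2 * Real.pi * Real.log (2 * K / (1 / (2 * √n))))) := by
    refine (measure_mono hun).trans ?_
    rw [hμ _ ((by fun_prop : Measurable fun a : ℂ => a - y) (W349.CD.meas_ann _ _))]
    have hpre : (fun a : ℂ => a + y) ⁻¹' ((fun a => a - y) ⁻¹'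
        {a : ℂ | 1 / (2 * √n) ≤ ‖a‖ ∧ ‖a‖ ≤ 2 * K}) =
        {a : ℂ | 1 / (2 * √n) ≤ ‖a‖ ∧ ‖a‖ ≤ 2 * K} := by
      ext a
      simp
    rw [hpre]
    by_cases hcase : 1 / (2 * √(n : ℝ)) ≤ 2 * K
    · rw [W349.CD.nu_ann _ _ (by positivity) hcase, ← ENNReal.ofReal_mul (by positivity)]
    · have hemp : {a : ℂ | 1 / (2 * √n) ≤ ‖a‖ ∧ ‖a‖ ≤ 2 * K} = ∅ := by
        rw [eq_empty_iff_forall_notMem]
        rintro a ⟨h1, h2⟩
        exact hcase (h1.trans h2)
      rw [hemp, measure_empty, mul_zero]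
      exact zero_le
  -- logarithm
  have hlogK : Real.log (2 * K / (1 / (2 * √n))) ≤ 3 / 2 * Real.log n := by
    have h1 : 2 * K / (1 / (2 * √(n : ℝ))) = 4 * K * √n := by
      field_simp
      ring
    rw [h1, Real.log_mul (by positivity) (by positivity), Real.log_sqrt hn0.le]
    have h2 : Real.log (4 * K) ≤ Real.log n := Real.log_le_log (by positivity) hnK
    linarith
  have hSX : S ⊆ ball y (1 / √n) ∪ (S ∩ X) := by
    intro w hw
    by_cases h : w ∈ ball y (1 / √n)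
    · exact Or.inl h
    · exact Or.inr ⟨hw, hw, h⟩
  have hball : volume (ball y (1 / √(n : ℝ))) ≤ ENNReal.ofReal (Real.pi / n) := by
    rw [Complex.volume_ball]
    have h4 : (↑NNReal.pi : ENNReal) = ENNReal.ofReal Real.pi := by
      rw [← NNReal.coe_real_pi, ENNReal.ofReal_coe_nnreal]
    rw [h4, ← ENNReal.ofReal_pow (by positivity), ← ENNReal.ofReal_mul (by positivity)]
    apply ENNReal.ofReal_le_ofReal
    rw [div_pow, one_pow, Real.sq_sqrt hn0.le]
    apply le_of_eq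
    ring
  calc volume S ≤ volume (ball y (1 / √(n : ℝ))) + volume (S ∩ X) :=
        (measure_mono hSX).trans (measure_union_le _ _)
    _ ≤ ENNReal.ofReal (Real.pi / n) +
        ENNReal.ofReal (C' / n * (2 * Real.pi * Real.log (2 * K / (1 / (2 * √n))))) :=
        add_le_add hball (hvit.trans hμun)
    _ ≤ ENNReal.ofReal (Real.pi / n) + ENNReal.ofReal (C' / n * (3 * Real.pi * Real.log n)) := by
        refine add_le_add le_rfl (ENNReal.ofReal_le_ofReal
          (mul_le_mul_of_nonneg_left ?_ (by positivity)))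
        have h1 := mul_le_mul_of_nonneg_left hlogK (show 0 ≤ 2 * Real.pi by positivity)
        linarith
    _ = ENNReal.ofReal (Real.pi / n + C' / n * (3 * Real.pi * Real.log n)) := by
        have := Real.pi_pos
        rw [ENNReal.ofReal_add (by positivity) (by positivity)]
    _ ≤ ENNReal.ofReal ((Real.pi + 3 * Real.pi * C') * (Real.log n / n)) := by
        apply ENNReal.ofReal_le_ofReal
        have h1 : Real.pi / n ≤ Real.pi * (Real.log n / n) := by
          rw [mul_div_assoc']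
          gcongr
          have := Real.pi_pos
          nlinarith
        have h2 : C' / n * (3 * Real.pi * Real.log n) = 3 * Real.pi * C' * (Real.log n / n) := by
          ring
        rw [h2, add_mul]
        linarith

end Pool.Agent.K3h21.CR
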